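import Pool.Agent.H25.MatTor

set_option autoImplicit false

namespace Pool.Agent.Results.MP_2a9801_co.Deg5

open Pool.Agent.H25.MatTor

theorem result : ∃ G : SimpleGraph (Fin 10), ∀ (K : Type) [Field K]
    (S : Set (MvPolynomial (Matching G) K)),
    Ideal.span S = RingHom.ker (toricMap G K) → ∃ f ∈ S, 5 ≤ f.totalDegree :=
  ⟨G, main⟩

end Pool.Agent.Results.MP_2a9801_co.Deg5
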